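import Pool.Agent.Y752.QF.Stm4
import Pool.Agent.Y369.QF.Arc

set_option autoImplicit false

/-! Project QF (helper752), third wave: the weighted sum of the errors with exponent 1 (helper700). -/

namespace Pool.Agent.Y700.QF

open Pool.Agent.Y752.QF
open Pool.Agent.Y832.QF
open Pool.Agent.Y369.QF (NN_cop)
open Pool.Agent.H306R2.RG (FD F8 F4 F1 cf jo)
open Pool.Agent.H306R2.RZ (js osf)

noncomputable section

lemma RR_bd (b : Bool) (X v n : ℕ) (hn : Odd n) :
    |RR b X (2 ^ v * n)| ≤ 4 + ∑ i : Fin 4, ∑ a ∈ cls b i, |NN (X / (fam b i).r) n a| := by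
  have h1 := RR_cls b X v n hn
  have h2 : |∑ i : Fin 4, (fam b i).η ^ v * (js (fam b i).e n *
      ∑ a ∈ cls b i, NN (X / (fam b i).r) n a)| ≤
      ∑ i : Fin 4, ∑ a ∈ cls b i, |NN (X / (fam b i).r) n a| := by
    refine (Finset.abs_sum_le_sum_abs _ _).trans (Finset.sum_le_sum fun i _ => ?_)
    rw [abs_mul, abs_mul]
    calc _ ≤ 1 * (1 * ∑ a ∈ cls b i, |NN (X / (fam b i).r) n a|) :=
          mul_le_mul (eta_le b i v) (mul_le_mul (abs_js_le _ _) (Finset.abs_sum_le_sum_abs _ _)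
            (abs_nonneg _) zero_le_one) (by positivity) zero_le_one
      _ = _ := by ring
  have h6 := abs_sub_abs_le_abs_sub (RR b X (2 ^ v * n)) (∑ i : Fin 4, (fam b i).η ^ v *
    (js (fam b i).e n * ∑ a ∈ cls b i, NN (X / (fam b i).r) n a))
  linarith

lemma RR_sq (b : Bool) (X v n : ℕ) (hn : Odd n) :
    (RR b X (2 ^ v * n)) ^ 2 ≤
      32 + 32 * ∑ i : Fin 4, ∑ a ∈ cls b i, (NN (X / (fam b i).r) n a) ^ 2 := by
  have h1 := RR_bd b X v n hn
  set S := ∑ i : Fin 4, ∑ a ∈ cls b i, |NN (X / (fam b i).r) n a| with hS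
  have h2 : S ^ 2 ≤ 16 * ∑ i : Fin 4, ∑ a ∈ cls b i, (NN (X / (fam b i).r) n a) ^ 2 := by
    have e1 : S ^ 2 ≤ 4 * ∑ i : Fin 4, (∑ a ∈ cls b i, |NN (X / (fam b i).r) n a|) ^ 2 := by
      have := sq_sum_le_card_mul_sum_sq (s := (Finset.univ : Finset (Fin 4)))
        (f := fun i => ∑ a ∈ cls b i, |NN (X / (fam b i).r) n a|)
      rw [Finset.card_univ, Fintype.card_fin] at this
      exact_mod_cast this
    have e2 : ∀ i : Fin 4, (∑ a ∈ cls b i, |NN (X / (fam b i).r) n a|) ^ 2 ≤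
        4 * ∑ a ∈ cls b i, (NN (X / (fam b i).r) n a) ^ 2 := by
      intro i
      have h3 := sq_sum_le_card_mul_sum_sq (s := cls b i)
        (f := fun a => |NN (X / (fam b i).r) n a|)
      simp only [sq_abs] at h3
      refine h3.trans ?_
      have : ((cls b i).card : ℝ) ≤ 4 := by exact_mod_cast cls_card b i
      exact mul_le_mul_of_nonneg_right this (Finset.sum_nonneg fun _ _ => sq_nonneg _)
    calc S ^ 2 ≤ 4 * ∑ i : Fin 4, (∑ a ∈ cls b i, |NN (X / (fam b i).r) n a|) ^ 2 := e1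
      _ ≤ 4 * ∑ i : Fin 4, (4 * ∑ a ∈ cls b i, (NN (X / (fam b i).r) n a) ^ 2) := by
          refine mul_le_mul_of_nonneg_left (Finset.sum_le_sum fun i _ => e2 i) (by norm_num)
      _ = _ := by rw [← Finset.mul_sum]; ring
  have h3 : (RR b X (2 ^ v * n)) ^ 2 ≤ (4 + S) ^ 2 := by
    rw [← sq_abs]
    exact pow_le_pow_left₀ (abs_nonneg _) h1 2
  nlinarith [sq_nonneg (4 - S)]

/-- the error at a number which is not a square -/
lemma Ee_ns (h1 : S_FM) (b : Bool) (X v va l' n : ℕ) (hl' : Odd l') (hn : Odd n)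
    (hsf : Squarefree n) (h2 : 2 ≤ n) :
    ‖Ee b X ((2 ^ va * l') ^ 2 * (2 ^ v * n))‖ ^ 2 =
      (RR b X (2 ^ (2 * va + v) * (l' * l' * n))) ^ 2 := by
  have hN1 : 1 ≤ (2 ^ va * l') ^ 2 * (2 ^ v * n) := by
    have h3 := hl'.pos
    have h4 := hn.pos
    exact Nat.mul_pos (by positivity) (by positivity)
  have eN : (2 ^ va * l') ^ 2 * (2 ^ v * n) = 2 ^ (2 * va + v) * (l' * l' * n) := by ring
  have hns : ¬ IsSquare n := by
    rintro ⟨t, ht⟩
    have h6 := hsf t ⟨1, by rw [mul_one]; exact ht⟩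
    rw [Nat.isUnit_iff] at h6
    rw [h6] at ht
    omega
  have hns2 : ¬ IsSquare (l' * l' * n) := by
    rintro ⟨t, ht⟩
    have h6 : l' ^ 2 ∣ t ^ 2 := ⟨n, by rw [sq t, ← ht]; ring⟩
    have h7 : l' ∣ t := (Nat.pow_dvd_pow_iff (by norm_num)).mp h6
    obtain ⟨c, rfl⟩ := h7
    apply hns
    refine ⟨c, ?_⟩
    have h8 : l' * l' * n = l' * l' * (c * c) := by rw [ht]; ring
    exact Nat.eq_of_mul_eq_mul_left (Nat.mul_pos hl'.pos hl'.pos) h8
  have hmm : mm X (2 ^ (2 * va + v) * (l' * l' * n)) = 0 := by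
    unfold mm
    rw [if_neg fun h => hns2 ((isSquare_iff _ _ ((hl'.mul hl').mul hn)).1 h).2, mul_zero]
  have e1 : Ee b X ((2 ^ va * l') ^ 2 * (2 ^ v * n)) =
      ((RR b X (2 ^ (2 * va + v) * (l' * l' * n)) : ℝ) : ℂ) := by
    unfold Ee
    rw [h1 b X _ hN1, eN, hmm]
    unfold RR
    push_cast
    ring
  rw [e1, Complex.norm_real, Real.norm_eq_abs, sq_abs]

open Classical in
/-- mean square over the odd squarefree numbers -/
lemma block (h1 : S_NS2) (h3 : S_FM) (e : ℝ) (he : 0 < e) : ∃ C : ℝ, 0 < C ∧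
    ∀ (b : Bool) (X v l N : ℕ), 1 ≤ X → 1 ≤ l → 1 ≤ N →
    ∑ n ∈ (osf N).filter (fun n => 2 ≤ n), ‖Ee b X (l ^ 2 * (2 ^ v * n))‖ ^ 2 ≤
      C * ((X : ℝ) * N * l) ^ e * (X * N) := by
  obtain ⟨C, hC, h1⟩ := h1 e he
  refine ⟨32 + 512 * C, by positivity, ?_⟩
  intro b X v l N hX hl hN
  obtain ⟨va, l', hl', hla⟩ := Nat.exists_eq_two_pow_mul_odd (n := l) (by omega)
  have hl'l : l' ≤ l := by rw [hla]; exact Nat.le_mul_of_pos_left l' (by positivity)
  have hX1 : (1 : ℝ) ≤ X := by exact_mod_cast hX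
  have hN1 : (1 : ℝ) ≤ N := by exact_mod_cast hN
  have hl1 : (1 : ℝ) ≤ l := by exact_mod_cast hl
  have hXN : (1 : ℝ) ≤ (X : ℝ) * N := one_le_mul_of_one_le_of_one_le hX1 hN1
  have hP1 : (1 : ℝ) ≤ ((X : ℝ) * N * l) ^ e :=
    Real.one_le_rpow (one_le_mul_of_one_le_of_one_le hXN hl1) he.le
  have hS : ∀ (i : Fin 4), ∀ a ∈ cls b i,
      ∑ n ∈ (osf N).filter (fun n => 2 ≤ n), (NN (X / (fam b i).r) (l' * l' * n) a) ^ 2 ≤
        C * ((X : ℝ) * N * l) ^ e * (X * N) := by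
    intro i a ha
    by_cases hD : X / (fam b i).r = 0
    · have e0 : ∀ n, NN (X / (fam b i).r) n a = 0 := by
        intro n
        unfold NN
        rw [hD]
        simp
      simp only [e0]
      rw [Finset.sum_eq_zero (fun n _ => by norm_num)]
      positivity
    · have h4 := h1 (X / (fam b i).r) N l' a (Nat.one_le_iff_ne_zero.mpr hD) hN hl'.pos (cls_sub b i a ha).2
      have e1 : ∑ n ∈ (osf N).filter (fun n => 2 ≤ n), (NN (X / (fam b i).r) (l' * l' * n) a) ^ 2 =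
          ∑ n ∈ (osf N).filter (fun n => 2 ≤ n), |∑ d ∈ (Finset.Icc 1 (X / (fam b i).r)).filter
            (fun d => Squarefree d ∧ d % 8 = a ∧ Nat.Coprime d l'), js d n| ^ 2 := by
        refine Finset.sum_congr rfl fun n hn => ?_
        rw [Finset.mem_filter] at hn
        rw [NN_cop _ l' n a hl'.pos.ne' (by omega), sq_abs]
      rw [e1]
      refine h4.trans ?_
      have h5 : ((X / (fam b i).r : ℕ) : ℝ) ≤ X := by exact_mod_cast Nat.div_le_self _ _
      have h6 : (l' : ℝ) ≤ l := by exact_mod_cast hl'l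
      have h7 : (((X / (fam b i).r : ℕ) : ℝ) * N * l') ^ e ≤ ((X : ℝ) * N * l) ^ e :=
        Real.rpow_le_rpow (by positivity) (by gcongr) he.le
      gcongr
  calc ∑ n ∈ (osf N).filter (fun n => 2 ≤ n), ‖Ee b X (l ^ 2 * (2 ^ v * n))‖ ^ 2
      ≤ ∑ n ∈ (osf N).filter (fun n => 2 ≤ n), (32 + 32 * ∑ i : Fin 4, ∑ a ∈ cls b i,
          (NN (X / (fam b i).r) (l' * l' * n) a) ^ 2) := by
        refine Finset.sum_le_sum fun n hn => ?_
        rw [Finset.mem_filter, osf, Finset.mem_filter] at hn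
        rw [hla, Ee_ns h3 b X v va l' n hl' hn.1.2.1 hn.1.2.2 hn.2]
        exact RR_sq b X _ _ ((hl'.mul hl').mul hn.1.2.1)
    _ = ((osf N).filter (fun n => 2 ≤ n)).card * 32 + 32 * ∑ i : Fin 4, ∑ a ∈ cls b i,
          ∑ n ∈ (osf N).filter (fun n => 2 ≤ n),
            (NN (X / (fam b i).r) (l' * l' * n) a) ^ 2 := by
        rw [Finset.sum_add_distrib, Finset.sum_const, nsmul_eq_mul, ← Finset.mul_sum,
          Finset.sum_comm]
        congr 2
        refine Finset.sum_congr rfl fun i _ => ?_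
        rw [Finset.sum_comm]
    _ ≤ N * 32 + 32 * ∑ i : Fin 4, ∑ a ∈ cls b i, C * ((X : ℝ) * N * l) ^ e * (X * N) := by
        have h5 : ((osf N).filter (fun n => 2 ≤ n)).card ≤ N := by
          calc _ ≤ (Finset.Icc 1 N).card := Finset.card_le_card
                ((Finset.filter_subset _ _).trans (Finset.filter_subset _ _))
            _ = N := by simp
        have h6 : (((osf N).filter (fun n => 2 ≤ n)).card : ℝ) ≤ N := by exact_mod_cast h5
        have h7 : ∑ i : Fin 4, ∑ a ∈ cls b i, ∑ n ∈ (osf N).filter (fun n => 2 ≤ n),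
            (NN (X / (fam b i).r) (l' * l' * n) a) ^ 2 ≤
            ∑ i : Fin 4, ∑ a ∈ cls b i, C * ((X : ℝ) * N * l) ^ e * (X * N) :=
          Finset.sum_le_sum fun i _ => Finset.sum_le_sum fun a ha => hS i a ha
        linarith
    _ ≤ N * 32 + 32 * (16 * (C * ((X : ℝ) * N * l) ^ e * (X * N))) := by
        have h8 : ∑ i : Fin 4, ∑ a ∈ cls b i, C * ((X : ℝ) * N * l) ^ e * (X * N) ≤
            16 * (C * ((X : ℝ) * N * l) ^ e * (X * N)) := by
          have hp : 0 ≤ C * ((X : ℝ) * N * l) ^ e * (X * N) := by positivity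
          calc _ ≤ ∑ i : Fin 4, 4 * (C * ((X : ℝ) * N * l) ^ e * (X * N)) := by
                refine Finset.sum_le_sum fun i _ => ?_
                rw [Finset.sum_const, nsmul_eq_mul]
                have : ((cls b i).card : ℝ) ≤ 4 := by exact_mod_cast cls_card b i
                exact mul_le_mul_of_nonneg_right this hp
            _ = _ := by
                rw [Finset.sum_const, Finset.card_univ, Fintype.card_fin, nsmul_eq_mul]
                push_cast
                ring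
        linarith
    _ ≤ (32 + 512 * C) * ((X : ℝ) * N * l) ^ e * (X * N) := by
        have h9 : (N : ℝ) ≤ ((X : ℝ) * N * l) ^ e * (X * N) := by
          calc (N : ℝ) = 1 * (1 * N) := by ring
            _ ≤ ((X : ℝ) * N * l) ^ e * (X * N) := by gcongr
        nlinarith

lemma abel (G : ℕ → ℝ) (A : ℝ) (Z : ℕ) (hZ : 1 ≤ Z)
    (h : ∀ N, 1 ≤ N → N ≤ Z → ∑ n ∈ Finset.Icc 1 N, G n ≤ A * N) :
    ∑ n ∈ Finset.Icc 1 Z, G n / n ≤ A * (harmonic Z : ℝ) := by
  have key : ∀ N, 1 ≤ N → N ≤ Z → ∑ n ∈ Finset.Icc 1 N, G n / n ≤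
      (∑ n ∈ Finset.Icc 1 N, G n) / N + A * ((harmonic N : ℝ) - 1) := by
    intro N hN
    induction N, hN using Nat.le_induction with
    | base => intro _; simp [harmonic]
    | succ N hN ih =>
      intro hNZ
      have ih' := ih (by omega)
      have h1 := h N hN (by omega)
      rw [Finset.sum_Icc_succ_top (by omega), Finset.sum_Icc_succ_top (by omega), harmonic_succ]
      set S := ∑ n ∈ Finset.Icc 1 N, G n with hS
      have hN0 : (0 : ℝ) < N := by exact_mod_cast hN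
      have h2 : S / N - S / ((N : ℝ) + 1) ≤ A / ((N : ℝ) + 1) := by
        have : S / N - S / ((N : ℝ) + 1) = S / (N * ((N : ℝ) + 1)) := by
          field_simp
          ring
        rw [this, div_le_div_iff₀ (by positivity) (by positivity)]
        nlinarith [h1]
      push_cast
      rw [add_div]
      have h3 : A * ((harmonic N : ℝ) + ((N : ℝ) + 1)⁻¹ - 1) =
          A * ((harmonic N : ℝ) - 1) + A / ((N : ℝ) + 1) := by
        rw [div_eq_mul_inv]; ring
      rw [h3]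
      linarith
  have h1 := key Z hZ le_rfl
  have hZ0 : (0 : ℝ) < Z := by exact_mod_cast hZ
  have h2 : (∑ n ∈ Finset.Icc 1 Z, G n) / Z ≤ A := by
    rw [div_le_iff₀ hZ0]
    exact h Z hZ le_rfl
  linarith

lemma invsq (Z : ℕ) : ∑ l ∈ Finset.Icc 1 Z, 1 / (l : ℝ) ^ 2 ≤ 2 := by
  have key : ∀ N : ℕ, 1 ≤ N → ∑ l ∈ Finset.Icc 1 N, 1 / (l : ℝ) ^ 2 ≤ 2 - 1 / (N : ℝ) := by
    intro N hN
    induction N, hN using Nat.le_induction with
    | base => simp; norm_num
    | succ N hN ih =>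
      rw [Finset.sum_Icc_succ_top (by omega)]
      have hN0 : (0 : ℝ) < N := by exact_mod_cast hN
      have : 1 / ((N : ℝ) + 1) ^ 2 ≤ 1 / N - 1 / ((N : ℝ) + 1) := by
        rw [div_sub_div _ _ hN0.ne' (by positivity), div_le_div_iff₀ (by positivity) (by positivity)]
        nlinarith
      push_cast
      linarith
  rcases Nat.eq_zero_or_pos Z with h | h
  · subst h; simp
  · have h1 := key Z h
    have : (0 : ℝ) ≤ 1 / Z := by positivity
    linarith

lemma cover (f : ℕ → ℝ) (hf : ∀ m, 0 ≤ f m) (Z : ℕ) :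
    ∑ m ∈ Finset.Icc 1 Z, f m ≤
      ∑ v ∈ Finset.range 2, ∑ l ∈ Finset.Icc 1 Z, ∑ n ∈ osf Z, f (l ^ 2 * (2 ^ v * n)) := by
  have h : ∀ m ∈ Finset.Icc 1 Z, ∃ q : ℕ × ℕ × ℕ, (q.1 ∈ Finset.range 2 ∧
      q.2.1 ∈ Finset.Icc 1 Z ∧ q.2.2 ∈ osf Z) ∧ q.2.1 ^ 2 * (2 ^ q.1 * q.2.2) = m := by
    intro m hm
    rw [Finset.mem_Icc] at hm
    obtain ⟨a, l, hal, hsf⟩ := Nat.sq_mul_squarefree m
    obtain ⟨v, n, hn, hav⟩ := Nat.exists_eq_two_pow_mul_odd (n := a) hsf.ne_zero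
    have hv : v < 2 := by
      by_contra hv
      have hv' : v = 2 + (v - 2) := by omega
      have h1 : 2 * 2 ∣ a := ⟨2 ^ (v - 2) * n, by rw [hav, hv', pow_add]; norm_num; ring⟩
      have h2 := hsf 2 h1
      rw [Nat.isUnit_iff] at h2
      omega
    have hl0 : 1 ≤ l := by
      rcases Nat.eq_zero_or_pos l with h0 | h0
      · subst h0
        omega
      · exact h0
    have hn0 : 1 ≤ n := hn.pos
    have ha0 : 1 ≤ a := Nat.pos_of_ne_zero hsf.ne_zero
    have hnm : n ≤ Z := by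
      calc n ≤ a := by rw [hav]; exact Nat.le_mul_of_pos_left n (by positivity)
        _ ≤ l ^ 2 * a := Nat.le_mul_of_pos_left a (by positivity)
        _ ≤ Z := by omega
    have hlm : l ≤ Z := by
      calc l ≤ l ^ 2 := by nlinarith
        _ ≤ l ^ 2 * a := Nat.le_mul_of_pos_right _ ha0
        _ ≤ Z := by omega
    refine ⟨(v, l, n), ⟨by simpa using hv, by simp [hl0, hlm], ?_⟩, ?_⟩
    · rw [osf, Finset.mem_filter, Finset.mem_Icc]
      exact ⟨⟨hn0, hnm⟩, hn, hsf.squarefree_of_dvd ⟨2 ^ v, by rw [hav, mul_comm]⟩⟩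
    · show l ^ 2 * (2 ^ v * n) = m
      rw [← hav, hal]
  choose! g hg1 hg2 using h
  calc ∑ m ∈ Finset.Icc 1 Z, f m
      = ∑ m ∈ Finset.Icc 1 Z, f ((g m).2.1 ^ 2 * (2 ^ (g m).1 * (g m).2.2)) :=
        Finset.sum_congr rfl fun m hm => by rw [hg2 m hm]
    _ = ∑ q ∈ (Finset.Icc 1 Z).image g, f (q.2.1 ^ 2 * (2 ^ q.1 * q.2.2)) := by
        rw [Finset.sum_image]
        intro m hm m' hm' hmm
        have h1 := hg2 m hm
        have h2 := hg2 m' hm'
        rw [hmm] at h1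
        exact h1.symm.trans h2
    _ ≤ ∑ q ∈ Finset.range 2 ×ˢ (Finset.Icc 1 Z ×ˢ osf Z), f (q.2.1 ^ 2 * (2 ^ q.1 * q.2.2)) := by
        refine Finset.sum_le_sum_of_subset_of_nonneg ?_ fun q _ _ => hf _
        intro q hq
        rw [Finset.mem_image] at hq
        obtain ⟨m, hm, rfl⟩ := hq
        rw [Finset.mem_product, Finset.mem_product]
        exact hg1 m hm
    _ = _ := by
        rw [Finset.sum_product]
        refine Finset.sum_congr rfl fun v _ => ?_
        rw [Finset.sum_product]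

open Classical in
/-- ES1 -/
theorem ES1 (h1 : S_NS2) (h2 : S_ARC) (h3 : S_FM) : S_ESK 1 := by
  intro B ε hε
  set B' := max B 1 with hB'
  have hB1 : 1 ≤ B' := le_max_right _ _
  set e := ε / (2 + 2 * B') with he'
  have he : 0 < e := by positivity
  obtain ⟨C1, hC1, h1⟩ := block h1 h3 e he
  obtain ⟨C2, hC2, h2⟩ := h2 e he
  refine ⟨4 * (4 * C2 ^ 2 * 2 ^ (2 * e) + C1 * (1 + B' / e)), by positivity, ?_⟩
  intro b X Z hX hZ
  have hX1 : (1 : ℝ) ≤ X := by exact_mod_cast hX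
  have hX0 : (0 : ℝ) < X := by linarith
  rcases Nat.eq_zero_or_pos Z with hZ0 | hZ0
  · subst hZ0
    simp
    positivity
  have hZ1 : (1 : ℝ) ≤ Z := by exact_mod_cast hZ0
  have hZB : (Z : ℝ) ≤ (X : ℝ) ^ B' :=
    hZ.trans (Real.rpow_le_rpow_of_exponent_le hX1 (le_max_left _ _))
  set L := (X : ℝ) ^ (e * (1 + 2 * B')) with hL
  set W := (X : ℝ) ^ e with hW
  have hL1 : 1 ≤ L := Real.one_le_rpow hX1 (by positivity)
  have hW1 : 1 ≤ W := Real.one_le_rpow hX1 he.le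
  have hpow : (X : ℝ) ^ (1 + ε) = X * (L * W) := by
    rw [hL, hW, ← Real.rpow_add hX0]
    nth_rewrite 2 [← Real.rpow_one (X : ℝ)]
    rw [← Real.rpow_add hX0]
    congr 1
    rw [he']
    field_simp
    ring
  have hXZl : ∀ N l : ℕ, N ≤ Z → l ≤ Z → ((X : ℝ) * N * l) ^ e ≤ L := by
    intro N l hN hl
    have hN' : (N : ℝ) ≤ (X : ℝ) ^ B' := le_trans (by exact_mod_cast hN) hZB
    have hl' : (l : ℝ) ≤ (X : ℝ) ^ B' := le_trans (by exact_mod_cast hl) hZB
    calc ((X : ℝ) * N * l) ^ e ≤ ((X : ℝ) * (X : ℝ) ^ B' * (X : ℝ) ^ B') ^ e :=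
          Real.rpow_le_rpow (by positivity) (by gcongr) he.le
      _ = L := by
          have : (X : ℝ) * (X : ℝ) ^ B' * (X : ℝ) ^ B' = (X : ℝ) ^ (1 + 2 * B') := by
            rw [show (1 + 2 * B' : ℝ) = 1 + B' + B' by ring, Real.rpow_add hX0, Real.rpow_add hX0,
              Real.rpow_one]
          rw [this, ← Real.rpow_mul hX0.le, hL]
          congr 1
          ring
  have hharm : (harmonic Z : ℝ) ≤ (1 + B' / e) * W := by
    have h4 := harmonic_le_one_add_log Z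
    have h5 : Real.log Z ≤ B' * Real.log X := by
      rw [← Real.log_rpow hX0]
      exact Real.log_le_log (by linarith) hZB
    have h6 : Real.log X ≤ W / e := Real.log_le_rpow_div hX0.le he
    calc (harmonic Z : ℝ) ≤ 1 + Real.log Z := h4
      _ ≤ 1 * W + B' * (W / e) := by
          have : B' * Real.log X ≤ B' * (W / e) := by gcongr
          linarith
      _ = _ := by ring
  have hT : ∀ v ∈ Finset.range 2, ∀ l ∈ Finset.Icc 1 Z,
      ∑ n ∈ osf Z, ‖Ee b X (l ^ 2 * (2 ^ v * n))‖ ^ 2 / ((l ^ 2 * (2 ^ v * n) : ℕ) : ℝ) ≤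
        ((4 * C2 ^ 2 * 2 ^ (2 * e) + C1 * (1 + B' / e)) * (X * (L * W))) * (1 / (l : ℝ) ^ 2) := by
    intro v hv l hl
    rw [Finset.mem_Icc] at hl
    rw [Finset.mem_range] at hv
    have hl1 : (1 : ℝ) ≤ l := by exact_mod_cast hl.1
    have hl0 : (0 : ℝ) < l := by linarith
    have hv1 : (1 : ℝ) ≤ 2 ^ v := one_le_pow₀ (by norm_num)
    have hv2 : (2 : ℝ) ^ v ≤ 2 := by
      calc (2 : ℝ) ^ v ≤ 2 ^ 1 := pow_le_pow_right₀ (by norm_num) (by omega)
        _ = 2 := by norm_num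
    rw [← Finset.sum_filter_add_sum_filter_not (osf Z) (fun n => 2 ≤ n)]
    have hA : ∑ n ∈ (osf Z).filter (fun n => 2 ≤ n),
        ‖Ee b X (l ^ 2 * (2 ^ v * n))‖ ^ 2 / ((l ^ 2 * (2 ^ v * n) : ℕ) : ℝ) ≤
        (C1 * L * X * ((1 + B' / e) * W)) * (1 / (l : ℝ) ^ 2) := by
      have e1 : ∀ n ∈ (osf Z).filter (fun n => 2 ≤ n),
          ‖Ee b X (l ^ 2 * (2 ^ v * n))‖ ^ 2 / ((l ^ 2 * (2 ^ v * n) : ℕ) : ℝ) ≤
          (‖Ee b X (l ^ 2 * (2 ^ v * n))‖ ^ 2 / n) * (1 / (l : ℝ) ^ 2) := by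
        intro n hn
        rw [Finset.mem_filter] at hn
        have hn0 : (0 : ℝ) < n := by exact_mod_cast (by omega : 0 < n)
        push_cast
        rw [div_mul_div_comm, mul_one]
        apply div_le_div_of_nonneg_left (by positivity) (by positivity)
        calc (n : ℝ) * (l : ℝ) ^ 2 = (l : ℝ) ^ 2 * (1 * n) := by ring
          _ ≤ (l : ℝ) ^ 2 * (2 ^ v * n) := by gcongr
      refine (Finset.sum_le_sum e1).trans ?_
      rw [← Finset.sum_mul]
      refine mul_le_mul_of_nonneg_right ?_ (by positivity)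
      set G : ℕ → ℝ := fun n => if (Odd n ∧ Squarefree n) ∧ 2 ≤ n then
        ‖Ee b X (l ^ 2 * (2 ^ v * n))‖ ^ 2 else 0 with hG
      have e2 : ∀ N, (osf N).filter (fun n => 2 ≤ n) =
          (Finset.Icc 1 N).filter (fun n => (Odd n ∧ Squarefree n) ∧ 2 ≤ n) := by
        intro N
        rw [osf, Finset.filter_filter]
      have e3 : ∑ n ∈ (osf Z).filter (fun n => 2 ≤ n), ‖Ee b X (l ^ 2 * (2 ^ v * n))‖ ^ 2 / n =
          ∑ n ∈ Finset.Icc 1 Z, G n / n := by
        rw [e2, Finset.sum_filter]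
        refine Finset.sum_congr rfl fun n _ => ?_
        simp only [hG]
        split_ifs
        · rfl
        · simp
      rw [e3]
      have e4 := abel G (C1 * L * X) Z hZ0 (fun N hN hNZ => by
        have e5 : ∑ n ∈ Finset.Icc 1 N, G n =
            ∑ n ∈ (osf N).filter (fun n => 2 ≤ n), ‖Ee b X (l ^ 2 * (2 ^ v * n))‖ ^ 2 := by
          rw [e2, Finset.sum_filter]
        rw [e5]
        refine (h1 b X v l N hX hl.1 hN).trans ?_
        have e6 := hXZl N l hNZ hl.2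
        calc C1 * ((X : ℝ) * N * l) ^ e * (X * N) ≤ C1 * L * (X * N) := by gcongr
          _ = C1 * L * X * N := by ring)
      refine e4.trans ?_
      exact mul_le_mul_of_nonneg_left hharm (by positivity)
    have hBd : ∑ n ∈ (osf Z).filter (fun n => ¬ 2 ≤ n),
        ‖Ee b X (l ^ 2 * (2 ^ v * n))‖ ^ 2 / ((l ^ 2 * (2 ^ v * n) : ℕ) : ℝ) ≤
        (4 * C2 ^ 2 * 2 ^ (2 * e) * (L * X)) * (1 / (l : ℝ) ^ 2) := by
      have hsub : (osf Z).filter (fun n => ¬ 2 ≤ n) ⊆ {1} := by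
        intro n hn
        rw [Finset.mem_filter, osf, Finset.mem_filter, Finset.mem_Icc] at hn
        rw [Finset.mem_singleton]
        omega
      refine (Finset.sum_le_sum_of_subset_of_nonneg hsub fun _ _ _ => by positivity).trans ?_
      rw [Finset.sum_singleton, mul_one]
      have hsf : Squarefree (2 ^ v) := by
        interval_cases v
        · simp
        · simpa using Nat.prime_two.squarefree
      have h4 := h2 b X (2 ^ v) l hX (Nat.one_le_two_pow) hl.1 hsf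
      push_cast at h4
      have h5 : ‖Ee b X (l ^ 2 * 2 ^ v)‖ ^ 2 ≤ 4 * C2 ^ 2 * 2 ^ (2 * e) * (L * X) := by
        have e1 : ((2 : ℝ) ^ v) ^ (1 / 4 : ℝ) ≤ 2 := by
          calc ((2 : ℝ) ^ v) ^ (1 / 4 : ℝ) ≤ ((2 : ℝ) ^ v) ^ (1 : ℝ) :=
                Real.rpow_le_rpow_of_exponent_le hv1 (by norm_num)
            _ = 2 ^ v := Real.rpow_one _
            _ ≤ 2 := hv2
        have e2 : ((l : ℝ) * 2 ^ v) ^ e ≤ 2 ^ e * (X : ℝ) ^ (B' * e) := by
          calc ((l : ℝ) * 2 ^ v) ^ e ≤ ((X : ℝ) ^ B' * 2) ^ e := by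
                apply Real.rpow_le_rpow (by positivity) _ he.le
                have : (l : ℝ) ≤ (X : ℝ) ^ B' := le_trans (by exact_mod_cast hl.2) hZB
                gcongr
            _ = _ := by
                rw [Real.mul_rpow (by positivity) (by norm_num), ← Real.rpow_mul hX0.le, mul_comm]
        have e3 : ‖Ee b X (l ^ 2 * 2 ^ v)‖ ≤
            C2 * (X : ℝ) ^ (1 / 2 : ℝ) * 2 * (2 ^ e * (X : ℝ) ^ (B' * e)) := by
          refine h4.trans ?_
          gcongr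
        calc ‖Ee b X (l ^ 2 * 2 ^ v)‖ ^ 2 ≤
              (C2 * (X : ℝ) ^ (1 / 2 : ℝ) * 2 * (2 ^ e * (X : ℝ) ^ (B' * e))) ^ 2 :=
              pow_le_pow_left₀ (norm_nonneg _) e3 2
          _ = 4 * C2 ^ 2 * (2 ^ e) ^ 2 * (((X : ℝ) ^ (B' * e)) ^ 2 * ((X : ℝ) ^ (1 / 2 : ℝ)) ^ 2) := by
              ring
          _ = 4 * C2 ^ 2 * 2 ^ (2 * e) * ((X : ℝ) ^ (2 * (B' * e)) * X) := by
              have f1 : ((2 : ℝ) ^ e) ^ 2 = 2 ^ (2 * e) := by
                rw [← Real.rpow_natCast, ← Real.rpow_mul (by norm_num)]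
                congr 1
                push_cast
                ring
              have f2 : ((X : ℝ) ^ (B' * e)) ^ 2 = (X : ℝ) ^ (2 * (B' * e)) := by
                rw [← Real.rpow_natCast, ← Real.rpow_mul hX0.le]
                congr 1
                push_cast
                ring
              have f3 : ((X : ℝ) ^ (1 / 2 : ℝ)) ^ 2 = X := by
                rw [← Real.sqrt_eq_rpow, Real.sq_sqrt hX0.le]
              rw [f1, f2, f3]
          _ ≤ 4 * C2 ^ 2 * 2 ^ (2 * e) * (L * X) := by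
              have f4 : (X : ℝ) ^ (2 * (B' * e)) ≤ L :=
                Real.rpow_le_rpow_of_exponent_le hX1 (by nlinarith)
              gcongr
      push_cast
      calc ‖Ee b X (l ^ 2 * 2 ^ v)‖ ^ 2 / ((l : ℝ) ^ 2 * 2 ^ v) ≤
            (4 * C2 ^ 2 * 2 ^ (2 * e) * (L * X)) / ((l : ℝ) ^ 2 * 1) := by gcongr
        _ = _ := by rw [mul_one, div_eq_mul_one_div]
    refine (add_le_add hA hBd).trans ?_
    rw [← add_mul]
    refine mul_le_mul_of_nonneg_right ?_ (by positivity)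
    have h7 : L * X ≤ X * (L * W) := by
      calc L * X = X * (L * 1) := by ring
        _ ≤ X * (L * W) := by gcongr
    have h8 : 4 * C2 ^ 2 * 2 ^ (2 * e) * (L * X) ≤ 4 * C2 ^ 2 * 2 ^ (2 * e) * (X * (L * W)) := by
      gcongr
    calc C1 * L * X * ((1 + B' / e) * W) + 4 * C2 ^ 2 * 2 ^ (2 * e) * (L * X)
        ≤ C1 * L * X * ((1 + B' / e) * W) + 4 * C2 ^ 2 * 2 ^ (2 * e) * (X * (L * W)) := by gcongr
      _ = _ := by ring
  have hc := cover (fun m => ‖Ee b X m‖ ^ 2 / (m : ℝ)) (fun m => by positivity) Z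
  refine hc.trans ?_
  rw [hpow]
  set K := (4 * C2 ^ 2 * 2 ^ (2 * e) + C1 * (1 + B' / e)) * (X * (L * W)) with hK
  have hK0 : 0 ≤ K := by positivity
  calc ∑ v ∈ Finset.range 2, ∑ l ∈ Finset.Icc 1 Z, ∑ n ∈ osf Z,
        ‖Ee b X (l ^ 2 * (2 ^ v * n))‖ ^ 2 / ((l ^ 2 * (2 ^ v * n) : ℕ) : ℝ)
      ≤ ∑ v ∈ Finset.range 2, ∑ l ∈ Finset.Icc 1 Z, K * (1 / (l : ℝ) ^ 2) :=
        Finset.sum_le_sum fun v hv => Finset.sum_le_sum fun l hl => hT v hv l hl
    _ = 2 * (K * ∑ l ∈ Finset.Icc 1 Z, 1 / (l : ℝ) ^ 2) := by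
        rw [Finset.sum_const, Finset.card_range, nsmul_eq_mul, ← Finset.mul_sum]
        push_cast
        ring
    _ ≤ 2 * (K * 2) := by
        have := invsq Z
        gcongr
    _ = _ := by rw [hK]; ring

end

end Pool.Agent.Y700.QF
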